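import Pool.Agent.TH2.NU.Near4
import Pool.Agent.TH941.NU.Out

/-! Near-uniform vectors at `4 N ≥ 144` points: the expected dimension in every degree. -/

namespace Pool.Agent.TH2.NU

open Finset Pool.Agent.TH176.Nag Pool.Agent.TH603.Sur Pool.Agent.H932R3

/-- **Every degree** at `4 N ≥ 144` points of multiplicities `m`, `m + 1`. -/
theorem near4 {N m : ℕ} (hN : 36 ≤ N) (hm1 : 1 ≤ m) {w : Fin (4 * N) → ℕ}
    (hw : ∀ i, w i = m ∨ w i = m + 1) {L : Type} [Field L] [CharZero L] :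
    ∃ F : MvPolynomial (Fin (4 * N) × Fin 2) ℚ, F ≠ 0 ∧ ∀ (P : Fin (4 * N) → Fin 2 → L),
      MvPolynomial.aeval (fun ij : Fin (4 * N) × Fin 2 => P ij.1 ij.2) F ≠ 0 →
      ∀ d : ℕ, ExpDim L w P d :=
  Pool.Agent.TH941.NU.near4_of hN hm1 hw fun hm d hcrit => crit4 hN hw hm (by
    push_cast
    exact hcrit)

end Pool.Agent.TH2.NU
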