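import Pool.Agent.TH2.NU.Defs
import Pool.Agent.TH763.DB.Coll

/-! Collision of four points with general multiplicities, all groups at once (after helper763). -/

namespace Pool.Agent.TH2.NU

open Finset Pool.Agent.TH176.Nag Pool.Agent.TH603.Sur Pool.Agent.TH763.DB

open Polynomial Module in
/-- Pade: for every `k` there are polynomials `A, B` of degree less than `(k + 1) / 2` and
`k / 2 + 1` with `A + B exp = X ^ k + O(X ^ (k + 1))` -/
theorem pade2 (K : Type) [Field K] [CharZero K] (k : ℕ) :
    ∃ A B : Polynomial K, (∀ i, A.coeff i ≠ 0 → 2 * i + 1 ≤ k) ∧ (∀ i, B.coeff i ≠ 0 → 2 * i + 1 ≤ k + 1) ∧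
      (∀ j < k, PowerSeries.coeff j ((A : PowerSeries K) + (B : PowerSeries K) * PowerSeries.exp K) = 0) ∧
      PowerSeries.coeff k ((A : PowerSeries K) + (B : PowerSeries K) * PowerSeries.exp K) = 1 := by
  obtain ⟨p, hp⟩ : ∃ p : ℕ, p = (k + 1) / 2 := ⟨_, rfl⟩
  obtain ⟨q, hq⟩ : ∃ q : ℕ, q = k / 2 + 1 := ⟨_, rfl⟩
  have hpq : p + q = k + 1 := by omega
  let V := ↥(degreeLT K p) × ↥(degreeLT K q)
  let L : V →ₗ[K] (Fin (p + q) → K) :=
    { toFun := fun v j => PowerSeries.coeff (j : ℕ) (((v.1 : Polynomial K) : PowerSeries K) +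
        ((v.2 : Polynomial K) : PowerSeries K) * PowerSeries.exp K)
      map_add' := by
        intro v w
        funext j
        have h1 : (((v + w).1 : Polynomial K) : PowerSeries K) + (((v + w).2 : Polynomial K) : PowerSeries K) * PowerSeries.exp K =
            (((v.1 : Polynomial K) : PowerSeries K) + ((v.2 : Polynomial K) : PowerSeries K) * PowerSeries.exp K) +
            (((w.1 : Polynomial K) : PowerSeries K) + ((w.2 : Polynomial K) : PowerSeries K) * PowerSeries.exp K) := by
          rw [Prod.fst_add, Prod.snd_add, Submodule.coe_add, Submodule.coe_add, Polynomial.coe_add,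
            Polynomial.coe_add]
          ring
        rw [h1, map_add]
        rfl
      map_smul' := by
        intro c v
        funext j
        have h1 : (((c • v).1 : Polynomial K) : PowerSeries K) + (((c • v).2 : Polynomial K) : PowerSeries K) * PowerSeries.exp K =
            c • (((v.1 : Polynomial K) : PowerSeries K) + ((v.2 : Polynomial K) : PowerSeries K) * PowerSeries.exp K) := by
          rw [Prod.smul_fst, Prod.smul_snd, Submodule.coe_smul, Submodule.coe_smul, Polynomial.coe_smul,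
            Polynomial.coe_smul, smul_add, smul_mul_assoc]
        rw [h1, map_smul]
        rfl }
  have hfin : finrank K V = finrank K (Fin (p + q) → K) := by
    have : FiniteDimensional K ↥(degreeLT K p) := (degreeLTEquiv K p).symm.finiteDimensional
    have : FiniteDimensional K ↥(degreeLT K q) := (degreeLTEquiv K q).symm.finiteDimensional
    rw [Module.finrank_prod, (degreeLTEquiv K p).finrank_eq, (degreeLTEquiv K q).finrank_eq,
      Module.finrank_fin_fun, Module.finrank_fin_fun, Module.finrank_fin_fun]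
  have : FiniteDimensional K V := by
    have : FiniteDimensional K ↥(degreeLT K p) := (degreeLTEquiv K p).symm.finiteDimensional
    have : FiniteDimensional K ↥(degreeLT K q) := (degreeLTEquiv K q).symm.finiteDimensional
    infer_instance
  have hinj : Function.Injective L := by
    rw [injective_iff_map_eq_zero]
    intro v hv
    have h1 := pade_inj K q p v.1 v.2 (mem_degreeLT.1 v.1.2) (mem_degreeLT.1 v.2.2) (by
      intro j hj
      exact congrFun hv ⟨j, hj⟩)
    exact Prod.ext (Subtype.ext h1.1) (Subtype.ext h1.2)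
  have hsur := (LinearMap.injective_iff_surjective_of_finrank_eq_finrank hfin).1 hinj
  obtain ⟨v, hv⟩ := hsur (Pi.single ⟨k, by omega⟩ 1)
  refine ⟨v.1, v.2, ?_, ?_, ?_, ?_⟩
  · intro i hi
    by_contra hcon
    exact hi (Polynomial.coeff_eq_zero_of_degree_lt (lt_of_lt_of_le (mem_degreeLT.1 v.1.2)
      (by exact_mod_cast (by omega : p ≤ i))))
  · intro i hi
    by_contra hcon
    exact hi (Polynomial.coeff_eq_zero_of_degree_lt (lt_of_lt_of_le (mem_degreeLT.1 v.2.2)
      (by exact_mod_cast (by omega : q ≤ i))))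
  · intro j hj
    have h1 := congrFun hv ⟨j, by omega⟩
    rw [Pi.single_eq_of_ne (by intro h; simp only [Fin.mk.injEq] at h; omega)] at h1
    exact h1
  · have h1 := congrFun hv ⟨k, by omega⟩
    rw [Pi.single_eq_same] at h1
    exact h1

section
variable {K : Type} [Field K] [CharZero K]

/-- sums with two rescaled polynomials vanish -/
theorem sum_poly_zero' {S : Finset (ℤ × ℤ)} {T : ℤ × ℤ → PowerSeries K} {f g : ℤ × ℤ → K}
    (A B : Polynomial K)
    (h : ∀ i j, A.coeff i ≠ 0 → B.coeff j ≠ 0 → ∑ u ∈ S, T u * PowerSeries.C (f u ^ i * g u ^ j) = 0) :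
    ∑ u ∈ S, T u * (PowerSeries.rescale (f u) (A : PowerSeries K) *
      PowerSeries.rescale (g u) (B : PowerSeries K)) = 0 := by
  have h1 : ∀ u ∈ S, T u * (PowerSeries.rescale (f u) (A : PowerSeries K) *
      PowerSeries.rescale (g u) (B : PowerSeries K)) =
      ∑ i ∈ range (A.natDegree + 1), ∑ j ∈ range (B.natDegree + 1),
        (PowerSeries.C (A.coeff i * B.coeff j) * PowerSeries.X ^ (i + j)) *
          (T u * PowerSeries.C (f u ^ i * g u ^ j)) := by
    intro u _
    rw [rescale_poly A le_rfl, rescale_poly B le_rfl, sum_mul_sum, mul_sum]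
    refine sum_congr rfl fun i _ => ?_
    rw [mul_sum]
    refine sum_congr rfl fun j _ => ?_
    simp only [map_mul, map_pow, pow_add]
    ring
  rw [sum_congr rfl h1, sum_comm]
  refine sum_eq_zero fun i _ => ?_
  rw [sum_comm]
  refine sum_eq_zero fun j _ => ?_
  rw [← mul_sum]
  by_cases hA : A.coeff i = 0
  · rw [hA]; simp
  by_cases hB : B.coeff j = 0
  · rw [hB]; simp
  rw [h i j hA hB, mul_zero]

/-- the limit conditions -/
theorem limit_cond' {S : Finset (ℤ × ℤ)} {G : ℤ × ℤ → PowerSeries K} {z : ℤ × ℤ → K}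
    {f g : ℤ × ℤ → K} {w : Fin 2 × Fin 2 → ℕ}
    (h : ∀ a b : Fin 2, ∀ i j, i + j < w (a, b) → ∑ u ∈ S, G u * (PowerSeries.C (z u * (f u ^ i * g u ^ j)) *
      ee (((a : ℕ) : K) * f u + ((b : ℕ) : K) * g u)) = 0) {k l : ℕ}
    (hkl : ∀ a : Fin 2 × Fin 2, ∀ p q : ℕ, 2 * p + 1 ≤ k + a.1 → 2 * q + 1 ≤ l + a.2 → p + q < w a) :
    ∑ u ∈ S, PowerSeries.constantCoeff (G u) * (z u * (f u ^ k * g u ^ l)) = 0 := by
  obtain ⟨A, B, hA, hB, hAB, hAB'⟩ := pade2 K k
  obtain ⟨A', B', hA', hB', hAB1, hAB1'⟩ := pade2 K l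
  -- divisibility
  have hdiv : ∀ (C : PowerSeries K) (k : ℕ), (∀ j < k, PowerSeries.coeff j C = 0) →
      PowerSeries.coeff k C = 1 → ∀ s : K, ∃ Ψ : PowerSeries K,
        PowerSeries.rescale s C = PowerSeries.X ^ k * Ψ ∧ PowerSeries.constantCoeff Ψ = s ^ k := by
    intro C k h0 h1 s
    have h2 : (PowerSeries.X : PowerSeries K) ^ k ∣ PowerSeries.rescale s C := by
      rw [PowerSeries.X_pow_dvd_iff]
      intro j hj
      rw [PowerSeries.coeff_rescale, h0 j hj, mul_zero]
    obtain ⟨Ψ, hΨ⟩ := h2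
    refine ⟨Ψ, hΨ, ?_⟩
    have h3 := PowerSeries.coeff_X_pow_mul Ψ k 0
    rw [zero_add, ← hΨ, PowerSeries.coeff_rescale, h1, mul_one] at h3
    rw [← PowerSeries.coeff_zero_eq_constantCoeff_apply, ← h3]
  choose Ψ hΨ hΨ' using hdiv _ k hAB hAB'
  choose Ψ' hΨ1 hΨ1' using hdiv _ l hAB1 hAB1'
  -- the sum vanishes
  have key : ∑ u ∈ S, G u * PowerSeries.C (z u) *
      (PowerSeries.rescale (f u) ((A : PowerSeries K) + (B : PowerSeries K) * PowerSeries.exp K) *
        PowerSeries.rescale (g u) ((A' : PowerSeries K) + (B' : PowerSeries K) * PowerSeries.exp K)) = 0 := by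
    have hs : ∀ a b : Fin 2, ∀ P Q : Polynomial K, (∀ i, P.coeff i ≠ 0 → 2 * i + 1 ≤ k + (a : ℕ)) →
        (∀ i, Q.coeff i ≠ 0 → 2 * i + 1 ≤ l + (b : ℕ)) →
        ∑ u ∈ S, (G u * PowerSeries.C (z u) * ee (((a : ℕ) : K) * f u + ((b : ℕ) : K) * g u)) *
          (PowerSeries.rescale (f u) (P : PowerSeries K) *
            PowerSeries.rescale (g u) (Q : PowerSeries K)) = 0 := by
      intro a b P Q hP hQ
      refine sum_poly_zero' P Q ?_
      intro i j hi hj
      rw [← h a b i j (hkl (a, b) i j (hP i hi) (hQ j hj))]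
      refine sum_congr rfl fun u _ => ?_
      simp only [map_mul]
      ring
    have h00 := hs 0 0 A A' (by simpa using hA) (by simpa using hA')
    have h01 := hs 0 1 A B' (by simpa using hA) (by simpa using hB')
    have h10 := hs 1 0 B A' (by simpa using hB) (by simpa using hA')
    have h11 := hs 1 1 B B' (by simpa using hB) (by simpa using hB')
    have e1 : ∀ u, G u * PowerSeries.C (z u) *
      (PowerSeries.rescale (f u) ((A : PowerSeries K) + (B : PowerSeries K) * PowerSeries.exp K) *
        PowerSeries.rescale (g u) ((A' : PowerSeries K) + (B' : PowerSeries K) * PowerSeries.exp K)) =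
      (G u * PowerSeries.C (z u) * ee ((((0 : Fin 2) : ℕ) : K) * f u + (((0 : Fin 2) : ℕ) : K) * g u)) *
          (PowerSeries.rescale (f u) (A : PowerSeries K) * PowerSeries.rescale (g u) (A' : PowerSeries K)) +
      (G u * PowerSeries.C (z u) * ee ((((0 : Fin 2) : ℕ) : K) * f u + (((1 : Fin 2) : ℕ) : K) * g u)) *
          (PowerSeries.rescale (f u) (A : PowerSeries K) * PowerSeries.rescale (g u) (B' : PowerSeries K)) +
      (G u * PowerSeries.C (z u) * ee ((((1 : Fin 2) : ℕ) : K) * f u + (((0 : Fin 2) : ℕ) : K) * g u)) *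
          (PowerSeries.rescale (f u) (B : PowerSeries K) * PowerSeries.rescale (g u) (A' : PowerSeries K)) +
      (G u * PowerSeries.C (z u) * ee ((((1 : Fin 2) : ℕ) : K) * f u + (((1 : Fin 2) : ℕ) : K) * g u)) *
          (PowerSeries.rescale (f u) (B : PowerSeries K) * PowerSeries.rescale (g u) (B' : PowerSeries K)) := by
      intro u
      simp only [Fin.val_zero, Fin.val_one, Nat.cast_zero, Nat.cast_one, zero_mul, one_mul, zero_add,
        add_zero, ee_zero, ← ee_add]
      rw [map_add, map_add, map_mul, map_mul, show PowerSeries.rescale (f u) (PowerSeries.exp K) = ee (f u) from rfl,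
        show PowerSeries.rescale (g u) (PowerSeries.exp K) = ee (g u) from rfl]
      ring
    rw [sum_congr rfl fun u _ => e1 u, sum_add_distrib, sum_add_distrib, sum_add_distrib, h00, h01,
      h10, h11]
    simp
  have key2 : (PowerSeries.X : PowerSeries K) ^ (k + l) *
      ∑ u ∈ S, G u * PowerSeries.C (z u) * (Ψ (f u) * Ψ' (g u)) = 0 := by
    rw [← key, mul_sum]
    refine sum_congr rfl fun u _ => ?_
    rw [hΨ, hΨ1, pow_add]
    ring
  have key3 := (mul_eq_zero.1 key2).resolve_left (pow_ne_zero _ PowerSeries.X_ne_zero)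
  have key4 := congrArg PowerSeries.constantCoeff key3
  rw [map_zero, map_sum] at key4
  rw [← key4]
  refine sum_congr rfl fun u _ => ?_
  rw [map_mul, map_mul, map_mul, hΨ', hΨ1', PowerSeries.constantCoeff_C]
  ring

end

/-- **Collision** with general multiplicities. -/
theorem collideG {N : ℕ} {κ : Type} {w : Fin N → Fin 2 × Fin 2 → ℕ} {e : κ → ℕ} {K : Type} [Field K]
    [CharZero K] (Λ : Set (ℕ × ℕ))
    (hΛ : ∀ kl ∈ Λ, ∀ i, ∀ a : Fin 2 × Fin 2, ∀ p q : ℕ, 2 * p + 1 ≤ kl.1 + a.1 → 2 * q + 1 ≤ kl.2 + a.2 →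
      p + q < w i a)
    (x y : Fin N → K) (x' y' : κ → K)
    (hx : ∀ i, x i ≠ 0) (hy : ∀ i, y i ≠ 0) (hx' : ∀ i, x' i ≠ 0) (hy' : ∀ i, y' i ≠ 0)
    (D E : Fin N → K × K) (S : Finset (ℤ × ℤ))
    (h : Sys S x' y' e ⊓ ⨅ i, ⨅ kl ∈ Λ, Ker (x i) (y i) (qq (D i) (E i) kl.1 kl.2) = ⊥) :
    Emp (Sum.elim (fun p : Fin N × (Fin 2 × Fin 2) => w p.1 p.2) e) (↑S : Set (ℤ × ℤ)) := by
  classical
  have hcz : CharZero (LL K) := by
    have h1 : Function.Injective ((io K).comp (PowerSeries.C (R := K))) :=
      ((io K).comp (PowerSeries.C (R := K))).injective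
    exact charZero_of_injective_ringHom h1
  have hCne : ∀ z : K, z ≠ 0 → io K (PowerSeries.C z) ≠ 0 := by
    intro z hz h0
    apply hz
    have := ((io K).comp (PowerSeries.C (R := K))).injective (by
      rw [map_zero]; exact h0 : ((io K).comp (PowerSeries.C (R := K))) z =
        ((io K).comp (PowerSeries.C (R := K))) 0)
    exact this
  refine ⟨LL K, inferInstance, hcz,
    Sum.elim (fun p => io K (PowerSeries.C (x p.1) *
      ee (((p.2.1 : ℕ) : K) * (D p.1).1 + ((p.2.2 : ℕ) : K) * (E p.1).1)))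
      (fun j => io K (PowerSeries.C (x' j) * ee ((0 : K) * 1 + 0 * 0))),
    Sum.elim (fun p => io K (PowerSeries.C (y p.1) *
      ee (((p.2.1 : ℕ) : K) * (D p.1).2 + ((p.2.2 : ℕ) : K) * (E p.1).2)))
      (fun j => io K (PowerSeries.C (y' j) * ee ((0 : K) * 0 + 0 * 1))), ?_, ?_, ?_⟩
  · rintro (p | j)
    · simp only [Sum.elim_inl, map_mul]
      exact mul_ne_zero (hCne _ (hx _)) (io_ee_ne _)
    · simp only [Sum.elim_inr, map_mul]
      exact mul_ne_zero (hCne _ (hx' _)) (io_ee_ne _)
  · rintro (p | j)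
    · simp only [Sum.elim_inl, map_mul]
      exact mul_ne_zero (hCne _ (hy _)) (io_ee_ne _)
    · simp only [Sum.elim_inr, map_mul]
      exact mul_ne_zero (hCne _ (hy' _)) (io_ee_ne _)
  · intro f hfS hfL
    by_contra hf0
    have hfS' : f.support ⊆ S := by
      intro u hu
      exact mem_coe.1 (hfS (mem_coe.2 hu))
    obtain ⟨b, hb⟩ := IsLocalization.exist_integer_multiples (nonZeroDivisors (PowerSeries K)) S
      (fun u => f u)
    have hb' : ∀ u ∈ S, ∃ g : PowerSeries K, io K g = io K (b : PowerSeries K) * f u := by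
      intro u hu
      obtain ⟨g, hg⟩ := hb u hu
      refine ⟨g, ?_⟩
      have h1 : (b • f u : LL K) = io K (b : PowerSeries K) * f u := by
        rw [Submonoid.smul_def, Algebra.smul_def]
      rw [← h1]
      exact hg
    choose! G hG using hb'
    have hbne : io K (b : PowerSeries K) ≠ 0 := by
      intro h0
      have h1 : (b : PowerSeries K) = 0 := io_inj (by rw [h0, map_zero])
      exact nonZeroDivisors.coe_ne_zero b h1
    obtain ⟨u0, hu0⟩ := Finsupp.support_nonempty_iff.2 hf0
    have hu0S := hfS' hu0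
    have hG0 : G u0 ≠ 0 := by
      intro h0
      have h1 := hG u0 hu0S
      rw [h0, map_zero] at h1
      exact (mul_ne_zero hbne (Finsupp.mem_support_iff.1 hu0)) h1.symm
    obtain ⟨v, H, hH, u1, hu1, hne⟩ := norm_fam G ⟨u0, hu0S, hG0⟩
    have hXne : io K ((PowerSeries.X : PowerSeries K) ^ v) ≠ 0 := by
      intro h0
      have h1 : (PowerSeries.X : PowerSeries K) ^ v = 0 := io_inj (by rw [h0, map_zero])
      exact pow_ne_zero _ PowerSeries.X_ne_zero h1
    obtain ⟨c, hc⟩ : ∃ c : LL K, c = io K (b : PowerSeries K) *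
      (io K ((PowerSeries.X : PowerSeries K) ^ v))⁻¹ := ⟨_, rfl⟩
    have hFH : ∀ u ∈ S, (c • f) u = io K (H u) := by
      intro u hu
      rw [Finsupp.smul_apply, smul_eq_mul, hc]
      have h1 := hG u hu
      rw [hH u hu, map_mul] at h1
      rw [mul_right_comm, ← h1]
      field_simp
    have hFS : (c • f).support ⊆ S := (Finsupp.support_smul).trans hfS'
    have hFL : ∀ (X Y : LL K) (w : ℕ), LM f X Y w → LM (c • f) X Y w := by
      intro X Y w hL P hP
      rw [pr_smul_left, hL P hP, mul_zero]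
    -- the limit
    obtain ⟨g, hg⟩ : ∃ g : (ℤ × ℤ) →₀ K, g = Finsupp.onFinset S
        (fun u => if u ∈ S then PowerSeries.constantCoeff (H u) else 0) (by
          intro u hu
          by_contra hnot
          exact hu (if_neg hnot)) := ⟨_, rfl⟩
    have hgS : g.support ⊆ S := by rw [hg]; exact Finsupp.support_onFinset_subset
    have hgu : ∀ u ∈ S, g u = PowerSeries.constantCoeff (H u) := by
      intro u hu
      rw [hg, Finsupp.onFinset_apply, if_pos hu]
    have hgne : g ≠ 0 := by
      intro h0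
      apply hne
      rw [← hgu u1 hu1, h0, Finsupp.zero_apply]
    apply hgne
    have hmem : g ∈ Sys S x' y' e ⊓ ⨅ i, ⨅ kl ∈ Λ, Ker (x i) (y i) (qq (D i) (E i) kl.1 kl.2) := by
      refine ⟨⟨?_, ?_⟩, ?_⟩
      · rw [SetLike.mem_coe, Finsupp.mem_supported]
        intro u hu
        exact mem_coe.2 (hgS (mem_coe.1 hu))
      · rw [SetLike.mem_coe, Submodule.mem_iInf]
        intro j
        rw [mem_Mul]
        apply LM_of_mono
        intro a b' hab
        have h1 := sum_zero (D := ((1 : K), (0 : K))) (E := ((0 : K), (1 : K))) (hx' j) (hy' j) hFS hFH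
          (hFL _ _ _ (hfL (Sum.inr j))) hab
        have h2 := congrArg PowerSeries.constantCoeff h1
        rw [map_zero, map_sum] at h2
        rw [pr_eq_sum hgS, ← h2]
        refine sum_congr rfl fun u hu => ?_
        rw [map_mul, map_mul, ee_const, PowerSeries.constantCoeff_C, hgu u hu]
        unfold lin
        simp only [one_mul, zero_mul, add_zero, zero_add, mul_one]
        ring
      · rw [SetLike.mem_coe, Submodule.mem_iInf]
        intro i
        simp only [Submodule.mem_iInf]
        intro kl hkl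
        rw [mem_Ker, pr_eq_sum hgS]
        have h1 := limit_cond' (S := S) (G := H) (z := fun u => x i ^ u.1 * y i ^ u.2)
          (f := fun u => lin (D i) ((u.1 : K), (u.2 : K))) (g := fun u => lin (E i) ((u.1 : K), (u.2 : K)))
          (w := w i) (fun a b' p q hpq => sum_zero (hx i) (hy i) hFS hFH
            (hFL _ _ _ (hfL (Sum.inl (i, (a, b'))))) hpq) (hΛ kl hkl i)
        rw [← h1]
        refine sum_congr rfl fun u hu => ?_
        rw [hgu u hu]
        unfold qq
        ring
    rw [h] at hmem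
    exact (Submodule.mem_bot K).1 hmem

end Pool.Agent.TH2.NU
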