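import Pool.Agent.TH2.NU.Defs
import Pool.Agent.TH763.DB.Conv

/-! One configuration with the convex bound, general base multiplicity (after helper763). -/

namespace Pool.Agent.TH2.NU

open Finset Module Pool.Agent.TH176.Nag Pool.Agent.TH603.Sur Pool.Agent.TH763.DB

/-- the multiplicities -/
def wJB {κ : Type} (N b : ℕ) (e : κ → ℕ) (J : Finset (Fin N)) : Fin N ⊕ κ → ℕ :=
  Sum.elim (fun i => b + if i ∈ J then 1 else 0) e

theorem wJB_mono {κ : Type} {N b : ℕ} {e : κ → ℕ} {J J' : Finset (Fin N)} (h : J ⊆ J') (i : Fin N ⊕ κ) :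
    wJB N b e J i ≤ wJB N b e J' i := by
  rcases i with i | i
  · simp only [wJB, Sum.elim_inl]
    by_cases hi : i ∈ J
    · rw [if_pos hi, if_pos (h hi)]
    · rw [if_neg hi]; omega
  · simp only [wJB, Sum.elim_inr]; exact le_refl _

theorem exists_confB {N b : ℕ} {κ : Type} [Finite κ] {e : κ → ℕ} (_hN : 0 < N) {S : Finset (ℤ × ℤ)}
    (hpos : ∀ u ∈ S, 0 ≤ u.1 ∧ 0 ≤ u.2) {c0 : ℕ}
    (h1 : ∃ T ⊆ S, T.card + c0 = S.card ∧
      Emp (Sum.elim (fun _ : Fin N => b) e) (↑T : Set (ℤ × ℤ)))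
    (h2 : Emp (Sum.elim (fun _ : Fin N => b + 1) e) (↑S : Set (ℤ × ℤ))) :
    ∃ (K : Type) (_ : Field K) (_ : CharZero K) (x y : Fin N → K) (x' y' : κ → K),
      (∀ i, x i ≠ 0) ∧ (∀ i, y i ≠ 0) ∧ (∀ i, x' i ≠ 0) ∧ (∀ i, y' i ≠ 0) ∧
      ∀ J : Finset (Fin N), N * finrank K ↥(Sys S (Sum.elim x x') (Sum.elim y y')
        (Sum.elim (fun i => b + if i ∈ J then 1 else 0) e)) ≤ (N - J.card) * c0 := by
  classical
  have hex : ∀ J : Finset (Fin N), ∃ c, ∃ T ⊆ S, T.card + c = S.card ∧
      Emp (wJB N b e J) (↑T : Set (ℤ × ℤ)) := by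
    intro J
    refine ⟨S.card, ∅, empty_subset _, by simp, ℚ, inferInstance, inferInstance, fun _ => 1,
      fun _ => 1, fun _ => one_ne_zero, fun _ => one_ne_zero, ?_⟩
    intro f hf _
    rw [coe_empty, Set.subset_empty_iff, coe_eq_empty, Finsupp.support_eq_empty] at hf
    exact hf
  let c : Finset (Fin N) → ℕ := fun J => Nat.find (hex J)
  have hcs : ∀ J, ∃ T ⊆ S, T.card + c J = S.card ∧ Emp (wJB N b e J) (↑T : Set (ℤ × ℤ)) :=
    fun J => Nat.find_spec (hex J)
  have hcm : ∀ J c', (∃ T ⊆ S, T.card + c' = S.card ∧ Emp (wJB N b e J) (↑T : Set (ℤ × ℤ))) → c J ≤ c' :=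
    fun J c' h => Nat.find_min' (hex J) h
  choose T hTS hTc hTE using hcs
  have hF : ∀ J, ∃ F : MvPolynomial ((Fin N ⊕ κ) × Fin 2) ℚ, F ≠ 0 ∧
      ∀ {L : Type} [Field L] [CharZero L] (P : (Fin N ⊕ κ) × Fin 2 → L),
      MvPolynomial.aeval P F ≠ 0 → (∀ q, P q ≠ 0) ∧
      ∀ f : (ℤ × ℤ) →₀ L, (↑f.support : Set (ℤ × ℤ)) ⊆ (↑(T J) : Set (ℤ × ℤ)) →
        (∀ i, LM f (P (i, 0)) (P (i, 1)) (wJB N b e J i)) → f = 0 := fun J =>
    Emp_open (T J).finite_toSet (fun u hu => hpos u (hTS J (mem_coe.1 hu))) (hTE J)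
  choose F hF0 hF1 using hF
  have hprod : (∏ J : Finset (Fin N), F J) ≠ 0 := prod_ne_zero_iff.2 fun J _ => hF0 J
  obtain ⟨P, hP⟩ : ∃ P : (Fin N ⊕ κ) × Fin 2 → ℚ, MvPolynomial.eval P (∏ J : Finset (Fin N), F J) ≠ 0 := by
    by_contra hcon
    push Not at hcon
    exact hprod (MvPolynomial.funext fun P => by rw [hcon P, map_zero])
  have hPJ : ∀ J, MvPolynomial.aeval P (F J) ≠ 0 := by
    intro J h0
    apply hP
    rw [map_prod]
    apply prod_eq_zero (mem_univ J)
    rw [← h0, ← MvPolynomial.coe_aeval_eq_eval]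
    rfl
  -- the dimension at P
  let V : Finset (Fin N) → Submodule ℚ ((ℤ × ℤ) →₀ ℚ) := fun J =>
    Sys S (fun i => P (i, 0)) (fun i => P (i, 1)) (wJB N b e J)
  have hVS : ∀ J, V J ≤ Finsupp.supported ℚ ℚ (↑S : Set (ℤ × ℤ)) := fun J => inf_le_left
  have hVc : ∀ J, finrank ℚ ↥(V J) = c J := by
    intro J
    apply le_antisymm
    · refine finrank_le_of_inf (hTS J) (hTc J) (hVS J) ?_
      rw [eq_bot_iff]
      rintro f ⟨hf1, hf2⟩
      have h3 := (hF1 J P (hPJ J)).2 f (by
        have := (Finsupp.mem_supported ℚ f).1 hf2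
        exact this) (fun i => by
          have h4 := hf1.2
          rw [SetLike.mem_coe, Submodule.mem_iInf] at h4
          exact h4 i)
      rw [h3]
      exact Submodule.zero_mem _
    · apply hcm
      have hle : finrank ℚ ↥(V J) ≤ S.card := by
        have := fd_supp (K := ℚ) S
        rw [← finrank_supp (K := ℚ) S]
        exact Submodule.finrank_mono (hVS J)
      obtain ⟨T', hT'S, hT'c, hT'⟩ := exists_sub S
        (⨅ i, Mul (P (i, 0)) (P (i, 1)) (wJB N b e J i)) (le_refl (finrank ℚ ↥(V J))) hle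
      refine ⟨T', hT'S, hT'c, ℚ, inferInstance, inferInstance, fun i => P (i, 0), fun i => P (i, 1),
        fun i => (hF1 J P (hPJ J)).1 _, fun i => (hF1 J P (hPJ J)).1 _, ?_⟩
      intro f hf hL
      have h3 : f ∈ Finsupp.supported ℚ ℚ (↑T' : Set (ℤ × ℤ)) ⊓
          ⨅ i, Mul (P (i, 0)) (P (i, 1)) (wJB N b e J i) := by
        refine ⟨(Finsupp.mem_supported ℚ f).2 hf, ?_⟩
        rw [SetLike.mem_coe, Submodule.mem_iInf]
        exact hL
      rw [hT'] at h3
      exact (Submodule.mem_bot ℚ).1 h3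
  -- symmetry
  have hsym : ∀ J J' : Finset (Fin N), J.card = J'.card → c J' ≤ c J := by
    intro J J' hJJ
    apply hcm
    refine ⟨T J, hTS J, hTc J, ?_⟩
    let σ0 : {i // i ∈ J} ≃ {i // i ∈ J'} := Finset.equivOfCardEq hJJ
    let σ : Equiv.Perm (Fin N) := σ0.extendSubtype
    refine Emp_emb (Sum.map σ id) (Sum.map_injective.2 ⟨σ.injective, Function.injective_id⟩) ?_ (hTE J)
    rintro (i | i)
    · simp only [wJB, Sum.elim_inl, Sum.map_inl]
      by_cases hi : i ∈ J
      · rw [if_pos hi, if_pos (σ0.extendSubtype_mem i hi)]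
      · rw [if_neg hi]; omega
    · simp only [wJB, Sum.elim_inr, Sum.map_inr, id]
      exact le_refl _
  -- the function of the cardinality
  let g : ℕ → ℕ := fun j => c (univ.filter fun i : Fin N => (i : ℕ) < j)
  have hcard : ∀ j, j ≤ N → (univ.filter fun i : Fin N => (i : ℕ) < j).card = j := by
    intro j hj
    have : (univ.filter fun i : Fin N => (i : ℕ) < j) = (univ : Finset (Fin j)).map (Fin.castLEEmb hj) := by
      ext i
      simp only [mem_filter, mem_univ, true_and, mem_map, Fin.castLEEmb_apply]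
      constructor
      · intro hi
        exact ⟨⟨i, hi⟩, rfl⟩
      · rintro ⟨k, rfl⟩
        exact k.2
    rw [this, card_map, card_univ, Fintype.card_fin]
  have hg : ∀ J : Finset (Fin N), c J = g J.card := by
    intro J
    have hJ : J.card ≤ N := by
      have := card_le_univ J
      rwa [Fintype.card_fin] at this
    exact le_antisymm (hsym _ _ (hcard _ hJ)) (hsym _ _ (hcard _ hJ).symm)
  have hg0 : g 0 ≤ c0 := by
    apply hcm
    obtain ⟨T0, hT0, hT0c, hT0E⟩ := h1
    refine ⟨T0, hT0, hT0c, ?_⟩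
    have : wJB N b e (univ.filter fun i : Fin N => (i : ℕ) < 0) = Sum.elim (fun _ : Fin N => b) e := by
      unfold wJB
      congr 1
      funext i
      simp
    rw [this]
    exact hT0E
  have hgN : g N = 0 := by
    have h3 : g N ≤ 0 := by
      apply hcm
      refine ⟨S, Subset.refl _, by simp, ?_⟩
      have : wJB N b e (univ.filter fun i : Fin N => (i : ℕ) < N) = Sum.elim (fun _ : Fin N => b + 1) e := by
        unfold wJB
        congr 1
        funext i
        simp
      rw [this]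
      exact h2
    omega
  have hmono : ∀ J J' : Finset (Fin N), J ⊆ J' → V J' ≤ V J := by
    intro J J' hJJ
    refine inf_le_inf_left _ (iInf_mono fun i f hf => ?_)
    exact LM.mono hf (wJB_mono hJJ i)
  have hconv : ∀ j, j + 2 ≤ N → 2 * g (j + 1) ≤ g j + g (j + 2) := by
    intro j hj
    let J : Finset (Fin N) := univ.filter fun i : Fin N => (i : ℕ) < j
    let i1 : Fin N := ⟨j, by omega⟩
    let i2 : Fin N := ⟨j + 1, by omega⟩
    have hJ : J.card = j := hcard j (by omega)
    have hi1 : i1 ∉ J := by simp [J, i1]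
    have hi2 : i2 ∉ J := by simp [J, i2]
    have hne : i1 ≠ i2 := by
      intro h
      have := congrArg Fin.val h
      simp [i1, i2] at this
    have hc1 : (insert i1 J).card = j + 1 := by rw [card_insert_of_notMem hi1, hJ]
    have hc2 : (insert i2 J).card = j + 1 := by rw [card_insert_of_notMem hi2, hJ]
    have hi12 : i1 ∉ insert i2 J := by
      rw [mem_insert]; push Not; exact ⟨hne, hi1⟩
    have hc12 : (insert i1 (insert i2 J)).card = j + 2 := by
      rw [card_insert_of_notMem hi12, hc2]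
    have hfd := fd_supp (K := ℚ) S
    have hfdV : ∀ J, FiniteDimensional ℚ ↥(V J) := fun J => Submodule.finiteDimensional_of_le (hVS J)
    have := hfdV (insert i1 J)
    have := hfdV (insert i2 J)
    have := hfdV J
    have h3 := Submodule.finrank_sup_add_finrank_inf_eq (V (insert i1 J)) (V (insert i2 J))
    have h4 : V (insert i1 J) ⊔ V (insert i2 J) ≤ V J :=
      sup_le (hmono _ _ (subset_insert _ _)) (hmono _ _ (subset_insert _ _))
    have h5 : V (insert i1 J) ⊓ V (insert i2 J) ≤ V (insert i1 (insert i2 J)) := by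
      rintro f ⟨hf1, hf2⟩
      refine ⟨hf1.1, ?_⟩
      have hf1' := hf1.2
      have hf2' := hf2.2
      rw [SetLike.mem_coe, Submodule.mem_iInf] at hf1' hf2' ⊢
      rintro (i | i)
      · by_cases hi : i = i1
        · have h6 := hf1' (Sum.inl i)
          have e1 : wJB N b e (insert i1 J) (Sum.inl i) = wJB N b e (insert i1 (insert i2 J)) (Sum.inl i) := by
            simp [wJB, hi]
          rw [← e1]
          exact h6
        · have h6 := hf2' (Sum.inl i)
          have e1 : wJB N b e (insert i2 J) (Sum.inl i) = wJB N b e (insert i1 (insert i2 J)) (Sum.inl i) := by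
            simp [wJB, hi]
          rw [← e1]
          exact h6
      · exact hf1' (Sum.inr i)
    have h6 := Submodule.finrank_mono h4
    have := hfdV (insert i1 (insert i2 J))
    have h7 := Submodule.finrank_mono h5
    rw [hVc, hg, hc1, hVc, hg, hc2] at h3
    rw [hVc, hg, hJ] at h6
    rw [hVc, hg, hc12] at h7
    omega
  refine ⟨ℚ, inferInstance, inferInstance, fun i => P (Sum.inl i, 0), fun i => P (Sum.inl i, 1),
    fun j => P (Sum.inr j, 0), fun j => P (Sum.inr j, 1), fun i => (hF1 ∅ P (hPJ ∅)).1 _,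
    fun i => (hF1 ∅ P (hPJ ∅)).1 _, fun i => (hF1 ∅ P (hPJ ∅)).1 _, fun i => (hF1 ∅ P (hPJ ∅)).1 _, ?_⟩
  intro J
  have hJ : J.card ≤ N := by
    have := card_le_univ J
    rwa [Fintype.card_fin] at this
  have e1 : (Sum.elim (fun i : Fin N => P (Sum.inl i, 0)) fun j : κ => P (Sum.inr j, 0)) =
      fun i => P (i, 0) := by
    funext i
    rcases i with i | i <;> rfl
  have e2 : (Sum.elim (fun i : Fin N => P (Sum.inl i, 1)) fun j : κ => P (Sum.inr j, 1)) =
      fun i => P (i, 1) := by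
    funext i
    rcases i with i | i <;> rfl
  rw [e1, e2]
  have h3 : finrank ℚ ↥(Sys S (fun i => P (i, 0)) (fun i => P (i, 1))
      (Sum.elim (fun i => b + if i ∈ J then 1 else 0) e)) = g J.card := by
    rw [← hg, ← hVc]
    rfl
  rw [h3]
  exact (conv_b hgN hconv J.card (N - J.card) (by omega)).trans (Nat.mul_le_mul_left _ hg0)

end Pool.Agent.TH2.NU
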