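import Pool.Agent.TH2.NU.Coll
import Pool.Agent.TH2.NU.Conv

/-! Doubling for the two kinds of clusters; exact clusters. -/

namespace Pool.Agent.TH2.NU

open Finset Pool.Agent.TH176.Nag Pool.Agent.TH603.Sur Pool.Agent.TH763.DB Module

/-- the vector of a doubling cluster: `(m,m,m,m)` for `b = 2 m`, `(m,m,m+1,m+1)` for `b = 2 m + 1` -/
def qv (b : ℕ) (p : Fin 2 × Fin 2) : ℕ := (b + p.1) / 2

/-- the vector of an exact cluster: `(m,m,m,m+1)` for `b = 2 m + 1`, `(m,m+1,m+1,m+1)` for `b = 2 m + 2` -/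
def rv (b : ℕ) (p : Fin 2 × Fin 2) : ℕ := (2 * b - 1 + (2 * p.1 + p.2)) / 4

/-- the exponents of the conditions in degree `b`; `(b + 1) / 2` elements -/
def II (b : ℕ) : Finset ℕ := (range (b + 1)).filter fun k => Odd (b - k)

theorem II_sub (b : ℕ) : II b ⊆ range (b + 1) := filter_subset _ _

theorem card_II (b : ℕ) : (II b).card = (b + 1) / 2 := by
  have h : II b = (range ((b + 1) / 2)).image fun i => b - (2 * i + 1) := by
    ext k
    unfold II
    rw [mem_filter, mem_range, mem_image]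
    constructor
    · rintro ⟨h1, i, hi⟩
      exact ⟨i, mem_range.2 (by omega), by omega⟩
    · rintro ⟨i, hi, rfl⟩
      rw [mem_range] at hi
      exact ⟨by omega, i, by omega⟩
  rw [h, card_image_of_injOn, card_range]
  intro i hi j hj hij
  simp only [coe_range, Set.mem_Iio] at hi hj
  simp only at hij
  omega

theorem two_choose (a : ℕ) : 2 * (a + 1).choose 2 = a * (a + 1) := by
  rw [Nat.choose_two_right, Nat.add_sub_cancel, mul_comm a (a + 1)]
  exact Nat.mul_div_cancel' (Nat.even_mul_pred_self (a + 1)).two_dvd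

theorem sum_qv (b : ℕ) : ∑ p : Fin 2 × Fin 2, (qv b p + 1).choose 2 = (b + 1).choose 2 + (b + 1) / 2 := by
  have key : 2 * ∑ p : Fin 2 × Fin 2, (qv b p + 1).choose 2 = 2 * ((b + 1).choose 2 + (b + 1) / 2) := by
    rw [Fintype.sum_prod_type]
    simp only [Fin.sum_univ_two, qv, Fin.val_zero, Fin.val_one, add_zero]
    rw [mul_add, mul_add, mul_add, mul_add, two_choose, two_choose, two_choose]
    obtain ⟨m, rfl | rfl⟩ := Nat.even_or_odd' b
    · have h1 : 2 * m / 2 = m := by omega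
      have h2 : (2 * m + 1) / 2 = m := by omega
      rw [h1, h2]
      ring
    · have h1 : (2 * m + 1) / 2 = m := by omega
      have h2 : (2 * m + 1 + 1) / 2 = m + 1 := by omega
      rw [h1, h2]
      ring
  omega

theorem sum_rv {b : ℕ} (hb : 1 ≤ b) : ∑ p : Fin 2 × Fin 2, (rv b p + 1).choose 2 = (b + 1).choose 2 := by
  have key : 2 * ∑ p : Fin 2 × Fin 2, (rv b p + 1).choose 2 = 2 * ((b + 1).choose 2) := by
    rw [Fintype.sum_prod_type]
    simp only [Fin.sum_univ_two, rv, Fin.val_zero, Fin.val_one, mul_zero, mul_one, add_zero, zero_add]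
    rw [mul_add, mul_add, mul_add, two_choose, two_choose, two_choose, two_choose, two_choose]
    obtain ⟨m, rfl | rfl⟩ := Nat.even_or_odd' b
    · obtain ⟨l, rfl⟩ := Nat.exists_eq_add_of_le (show 1 ≤ m by omega)
      have h1 : (2 * (2 * (1 + l)) - 1) / 4 = l := by omega
      have h2 : (2 * (2 * (1 + l)) - 1 + 1) / 4 = l + 1 := by omega
      have h3 : (2 * (2 * (1 + l)) - 1 + 2) / 4 = l + 1 := by omega
      have h4 : (2 * (2 * (1 + l)) - 1 + (2 + 1)) / 4 = l + 1 := by omega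
      rw [h1, h2, h3, h4]
      ring
    · have h1 : (2 * (2 * m + 1) - 1) / 4 = m := by omega
      have h2 : (2 * (2 * m + 1) - 1 + 1) / 4 = m := by omega
      have h3 : (2 * (2 * m + 1) - 1 + 2) / 4 = m := by omega
      have h4 : (2 * (2 * m + 1) - 1 + (2 + 1)) / 4 = m + 1 := by omega
      rw [h1, h2, h3, h4]
      ring
  omega

theorem cond_sum {N : ℕ} {κ : Type} [Fintype κ] {e : κ → ℕ} (v : Fin 2 × Fin 2 → ℕ) :
    cond (Sum.elim (fun p : Fin N × (Fin 2 × Fin 2) => v p.2) e) =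
      N * (∑ p : Fin 2 × Fin 2, (v p + 1).choose 2) + cond e := by
  unfold Pool.Agent.TH603.Sur.cond
  rw [Fintype.sum_sum_type]
  simp only [Sum.elim_inl, Sum.elim_inr]
  rw [Fintype.sum_prod_type]
  simp only [sum_const, card_univ, Fintype.card_fin, smul_eq_mul]

theorem cond_sum' {N b : ℕ} {κ : Type} [Fintype κ] {e : κ → ℕ} :
    cond (Sum.elim (fun _ : Fin N => b) e) = N * (b + 1).choose 2 + cond e := by
  unfold Pool.Agent.TH603.Sur.cond
  rw [Fintype.sum_sum_type]
  simp only [Sum.elim_inl, Sum.elim_inr, sum_const, card_univ, Fintype.card_fin, smul_eq_mul]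

/-- **Exact clusters**, emptiness. -/
theorem exactB {N b : ℕ} (hb : 1 ≤ b) {κ : Type} {e : κ → ℕ} {S : Finset (ℤ × ℤ)}
    (h : Emp (Sum.elim (fun _ : Fin N => b) e) (↑S : Set (ℤ × ℤ))) :
    Emp (Sum.elim (fun p : Fin N × (Fin 2 × Fin 2) => rv b p.2) e) (↑S : Set (ℤ × ℤ)) := by
  obtain ⟨K, _, _, x, y, hx, hy, hf⟩ := h
  refine collideG (w := fun _ p => rv b p) {kl | kl.1 + kl.2 < b} ?_ (fun i => x (Sum.inl i))
    (fun i => y (Sum.inl i)) (fun i => x (Sum.inr i)) (fun i => y (Sum.inr i)) (fun i => hx _)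
    (fun i => hy _) (fun i => hx _) (fun i => hy _) (fun _ => (1, 0)) (fun _ => (0, 1)) S ?_
  · rintro ⟨k, l⟩ hkl _ ⟨a, c⟩ p q h1 h2
    simp only [Set.mem_ofPred_eq] at hkl
    simp only at h1 h2
    unfold rv
    simp only
    have := a.2
    have := c.2
    omega
  · rw [eq_bot_iff]
    rintro f ⟨⟨hf1, hf2⟩, hf3⟩
    rw [SetLike.mem_coe, Submodule.mem_iInf] at hf2 hf3
    rw [Submodule.mem_bot]
    apply hf f
    · have := (Finsupp.mem_supported K f).1 hf1
      exact this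
    · rintro (i | i)
      · simp only [Sum.elim_inl]
        apply LM_of_mono
        intro a c hac
        have h3 := hf3 i
        simp only [Submodule.mem_iInf] at h3
        have h4 := h3 (a, c) hac
        rw [mem_Ker] at h4
        have h5 : qq ((1 : K), (0 : K)) ((0 : K), (1 : K)) a c = fun u => u.1 ^ a * u.2 ^ c := by
          funext u
          unfold qq lin
          simp
        rw [h5] at h4
        exact h4
      · exact hf2 i

/-- **Exact clusters**, independence. -/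
theorem exactB_Sur {N b : ℕ} (hb : 1 ≤ b) {κ : Type} [Fintype κ] {e : κ → ℕ} {S : Set (ℤ × ℤ)}
    (h : Sur (Sum.elim (fun _ : Fin N => b) e) S) :
    Sur (Sum.elim (fun p : Fin N × (Fin 2 × Fin 2) => rv b p.2) e) S := by
  obtain ⟨T, hT, hTc, hTE⟩ := h
  refine ⟨T, hT, ?_, exactB hb hTE⟩
  rw [hTc, cond_sum, cond_sum', sum_rv hb]

/-- multiplicity from the products of two independent linear forms -/
theorem LM_of_qq {K : Type} [Field K] {f : (ℤ × ℤ) →₀ K} {x y : K} {D E : K × K} {b : ℕ}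
    (hdet : D.1 * E.2 - D.2 * E.1 ≠ 0) (h : ∀ k l, k + l < b → pr f x y (qq D E k l) = 0) :
    LM f x y b := by
  let V : Submodule K (K × K → K) :=
    { carrier := {P | pr f x y (fun u => P (lin D u, lin E u)) = 0}
      add_mem' := by
        intro P Q hP hQ
        change pr f x y (fun u => P (lin D u, lin E u)) = 0 at hP
        change pr f x y (fun u => Q (lin D u, lin E u)) = 0 at hQ
        change pr f x y ((fun u => P (lin D u, lin E u)) + (fun u => Q (lin D u, lin E u))) = 0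
        rw [pr_add_right, hP, hQ, add_zero]
      zero_mem' := by
        change pr f x y (fun _ => 0) = 0
        unfold pr
        simp
      smul_mem' := by
        intro c P hP
        change pr f x y (fun u => P (lin D u, lin E u)) = 0 at hP
        change pr f x y (c • (fun u => P (lin D u, lin E u))) = 0
        rw [pr_smul_right, hP, mul_zero] }
  have hV : PF K b ≤ V := by
    apply Submodule.span_le.2
    rintro P ⟨k, l, hkl, rfl⟩
    exact h k l hkl
  intro Q hQ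
  obtain ⟨δ, hδ⟩ : ∃ δ : K, δ = D.1 * E.2 - D.2 * E.1 := ⟨_, rfl⟩
  have h1 := hV (PF_comp_aff hQ 0 (E.2 / δ) (-(D.2 / δ)) 0 (-(E.1 / δ)) (D.1 / δ))
  have h2 : pr f x y (fun u : K × K => Q (0 + E.2 / δ * lin D u + -(D.2 / δ) * lin E u,
      0 + -(E.1 / δ) * lin D u + D.1 / δ * lin E u)) = 0 := h1
  have h3 : (fun u : K × K => Q (0 + E.2 / δ * lin D u + -(D.2 / δ) * lin E u,
      0 + -(E.1 / δ) * lin D u + D.1 / δ * lin E u)) = Q := by
    funext u
    congr 1
    have hδ0 : δ ≠ 0 := by rw [hδ]; exact hdet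
    unfold lin
    ext
    · simp only
      field_simp
      rw [hδ]
      ring
    · simp only
      field_simp
      rw [hδ]
      ring
  rw [h3] at h2
  exact h2

/-- the statement of `exists_cluB` -/
def CluHypB : Prop :=
  ∀ {N b : ℕ} {I : Finset ℕ} (_ : I ⊆ range (b + 1)) {κ : Type} [Finite κ] {e : κ → ℕ}
    (_ : 0 < N) {S : Finset (ℤ × ℤ)} (_ : ∀ u ∈ S, 0 ≤ u.1 ∧ 0 ≤ u.2) {c0 : ℕ}
    (_ : ∃ T ⊆ S, T.card + c0 = S.card ∧ Emp (Sum.elim (fun _ : Fin N => b) e) (↑T : Set (ℤ × ℤ)))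
    (_ : Emp (Sum.elim (fun _ : Fin N => b + 1) e) (↑S : Set (ℤ × ℤ))),
    ∃ (K : Type) (_ : Field K) (_ : CharZero K) (x y : Fin N → K) (x' y' : κ → K)
      (D E : Fin N → K × K),
      (∀ i, x i ≠ 0) ∧ (∀ i, y i ≠ 0) ∧ (∀ i, x' i ≠ 0) ∧ (∀ i, y' i ≠ 0) ∧
      (∀ i, (D i).1 * (E i).2 - (D i).2 * (E i).1 ≠ 0) ∧
      finrank K ↥(Sys S x' y' e ⊓ ⨅ i, CluB (x i) (y i) (D i) (E i) b I) ≤ c0 - N * I.card

theorem doublingB_of (H : CluHypB) {N b : ℕ} {κ : Type} [Fintype κ] {e : κ → ℕ} (hN : 0 < N)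
    {S : Finset (ℤ × ℤ)} (hpos : ∀ u ∈ S, 0 ≤ u.1 ∧ 0 ≤ u.2)
    (h1 : Sur (Sum.elim (fun _ : Fin N => b) e) (↑S : Set (ℤ × ℤ)))
    (h2 : Emp (Sum.elim (fun _ : Fin N => b + 1) e) (↑S : Set (ℤ × ℤ))) :
    (S.card ≤ cond (Sum.elim (fun p : Fin N × (Fin 2 × Fin 2) => qv b p.2) e) →
      Emp (Sum.elim (fun p : Fin N × (Fin 2 × Fin 2) => qv b p.2) e) (↑S : Set (ℤ × ℤ))) ∧
    (cond (Sum.elim (fun p : Fin N × (Fin 2 × Fin 2) => qv b p.2) e) ≤ S.card →
      Sur (Sum.elim (fun p : Fin N × (Fin 2 × Fin 2) => qv b p.2) e) (↑S : Set (ℤ × ℤ))) := by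
  classical
  have hc1 := cond_sum' (N := N) (b := b) (e := e)
  have hc2 := cond_sum (N := N) (e := e) (qv b)
  rw [sum_qv, mul_add] at hc2
  obtain ⟨T, hTS, hTc, hTE⟩ := h1
  have hTS' : T ⊆ S := fun u hu => mem_coe.1 (hTS (mem_coe.2 hu))
  have hle : T.card ≤ S.card := card_le_card hTS'
  obtain ⟨K, _, _, x, y, x', y', D, E, hx, hy, hx', hy', hDE, hfr⟩ :=
    H (II_sub b) hN hpos (c0 := S.card - T.card) ⟨T, hTS', by omega, hTE⟩ h2
  rw [card_II] at hfr
  obtain ⟨r, hr⟩ : ∃ r : ℕ, r = N * ((b + 1) / 2) := ⟨_, rfl⟩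
  rw [← hr] at hfr hc2
  obtain ⟨c, hc⟩ : ∃ c : ℕ, c = S.card - T.card - r := ⟨_, rfl⟩
  rw [← hc] at hfr
  have hform : ∀ S' : Finset (ℤ × ℤ), Sys S' x' y' e ⊓ ⨅ i, CluB (x i) (y i) (D i) (E i) b (II b) =
      Finsupp.supported K K (↑S' : Set (ℤ × ℤ)) ⊓
        ((⨅ j, Mul (x' j) (y' j) (e j)) ⊓ ⨅ i, CluB (x i) (y i) (D i) (E i) b (II b)) := by
    intro S'
    unfold Sys
    rw [inf_assoc]
  rw [hform] at hfr
  obtain ⟨T', hT'S, hT'c, hT'⟩ := exists_sub S _ hfr (by omega)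
  rw [← hform] at hT'
  have hE : Emp (Sum.elim (fun p : Fin N × (Fin 2 × Fin 2) => qv b p.2) e) (↑T' : Set (ℤ × ℤ)) := by
    refine collideG (w := fun _ p => qv b p) {kl | kl.1 + kl.2 < b ∨ (kl.1 + kl.2 = b ∧ Odd kl.2)} ?_
      x y x' y' hx hy hx' hy' D E T' ?_
    · rintro ⟨k, l⟩ hkl _ ⟨a, c⟩ p q h1 h2
      simp only [Set.mem_ofPred_eq] at hkl
      simp only at h1 h2
      unfold qv
      simp only
      have := a.2
      have := c.2
      rcases hkl with hkl | ⟨hkl, i, hi⟩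
      · omega
      · omega
    · rw [eq_bot_iff, ← hT']
      refine inf_le_inf_left _ (iInf_mono fun i f hf => ?_)
      simp only [Submodule.mem_iInf] at hf
      refine ⟨?_, ?_⟩
      · rw [SetLike.mem_coe, mem_Mul]
        apply LM_of_qq (hDE i)
        intro k l hkl
        exact hf (k, l) (Or.inl hkl)
      · unfold OdI
        rw [SetLike.mem_coe]
        simp only [Submodule.mem_iInf]
        intro k hk
        unfold II at hk
        rw [mem_filter, mem_range] at hk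
        exact hf (k, b - k) (Or.inr ⟨by simp only; omega, hk.2⟩)
  constructor
  · intro hcard
    have : T' = S := by
      apply eq_of_subset_of_card_le hT'S
      omega
    rw [← this]
    exact hE
  · intro hcard
    exact ⟨T', by exact_mod_cast hT'S, by omega, hE⟩

end Pool.Agent.TH2.NU
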